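import Mathlib

/-! A positivity lemma for sums of juntas that miss two coordinates. -/

set_option autoImplicit false

namespace Pool.Agent.FS.SosGap

open Finset

theorem alt_zero {ι : Type} [Fintype ι] [DecidableEq ι] (h : Finset ι → ℝ) {a b : ι} (hab : a ≠ b)
    (ha : ∀ S, h (insert a S) = h S) (hb : ∀ S, h (insert b S) = h S) :
    ∑ S : Finset ι, (-1) ^ #S * ((#S : ℝ) - 1) * h S = 0 := by
  obtain ⟨T, hT⟩ : ∃ T : Finset ι, T = (univ.erase a).erase b := ⟨_, rfl⟩
  have hbT : b ∉ T := by simp [hT]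
  have haT : a ∉ insert b T := by simp [hT, hab]
  have hu : (univ : Finset ι) = insert a (insert b T) := by
    ext x
    by_cases h1 : x = a <;> by_cases h2 : x = b <;> simp [hT, h1, h2]
  rw [← powerset_univ, hu, sum_powerset_insert haT, sum_powerset_insert hbT,
    sum_powerset_insert hbT, ← sum_add_distrib, ← sum_add_distrib, ← sum_add_distrib]
  refine sum_eq_zero fun S hS => ?_
  have h1 : b ∉ S := fun h => hbT (mem_powerset.1 hS h)
  have h2 : a ∉ S := fun h => haT (mem_insert_of_mem (mem_powerset.1 hS h))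
  have h3 : a ∉ insert b S := by simp [hab, h2]
  rw [card_insert_of_notMem h3, card_insert_of_notMem h1, card_insert_of_notMem h2, ha, ha, hb]
  push_cast
  ring

theorem pos_core {ι W F : Type} [Fintype ι] [DecidableEq ι] [Fintype W] [DecidableEq W]
    [Fintype F] [DecidableEq F] [Zero F] (l : W → F) (τ : F → W → W)
    (hτ : ∀ c, Function.Injective (τ c)) (hl : ∀ c v, l v = 0 → l (τ c v) = c)
    (hι : 0 < Fintype.card ι)
    (hQ : 2 ^ Fintype.card ι * Fintype.card ι < Fintype.card F) (f : (ι → W) → ℝ)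
    (hf : ∀ d e : ι → W, ∑ S : Finset ι, (-1) ^ #S * ((#S : ℝ) - 1) * f (S.piecewise e d) = 0) :
    0 ≤ ∑ d : ι → W, ((#{i | l (d i) ≠ 0} : ℝ) - 1) * f d ^ 2 := by
  let P : (ι → W) → Finset ι := fun y => {i | l (y i) ≠ 0}
  let g : (ι → W) → ℝ := fun y => if P y = ∅ then 0 else ((#(P y) : ℝ) - 1) * f y ^ 2
  have hg : ∀ y, 0 ≤ g y := fun y => by
    simp only [g]
    split_ifs with h
    · exact le_rfl
    · have : (1 : ℝ) ≤ #(P y) := by exact_mod_cast card_pos.2 (nonempty_iff_ne_empty.2 h)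
      exact mul_nonneg (by linarith) (sq_nonneg _)
  let B : Finset (ι → W) := {d | P d = ∅}
  have hB : ∀ d ∈ B, ∀ i, l (d i) = 0 := fun d hd i => by
    have := (mem_filter.1 hd).2
    simpa [P] using filter_eq_empty_iff.1 this (mem_univ i)
  let y : (ι → W) × F × Finset ι → ι → W := fun z => z.2.2.piecewise (fun i => τ z.2.1 (z.1 i)) z.1
  have hP : ∀ d ∈ B, ∀ c, c ≠ 0 → ∀ S, P (y (d, c, S)) = S := fun d hd c hc S => by
    ext i
    by_cases h : i ∈ S <;> simp [P, y, h, hl c _ (hB d hd i), hB d hd i, hc]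
  obtain ⟨K, hK⟩ : ∃ K : ℝ, K = 2 ^ Fintype.card ι * Fintype.card ι := ⟨_, rfl⟩
  have hK0 : 0 ≤ K := by rw [hK]; positivity
  have h1 : ∀ d ∈ B, ∀ c ∈ univ.erase (0 : F),
      f d ^ 2 ≤ K * ∑ S ∈ univ.erase (∅ : Finset ι), g (y (d, c, S)) := fun d hd c hc => by
    have h2 := hf d fun i => τ c (d i)
    rw [← add_sum_erase _ _ (mem_univ ∅)] at h2
    simp only [card_empty, pow_zero, Nat.cast_zero, piecewise_empty] at h2
    have h3 : f d = ∑ S ∈ univ.erase (∅ : Finset ι),
        (-1) ^ #S * ((#S : ℝ) - 1) * f (y (d, c, S)) := by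
      simp only [y]
      linarith
    rw [h3]
    refine sq_sum_le_card_mul_sum_sq.trans ?_
    rw [hK, mul_assoc, mul_sum _ _ (Fintype.card ι : ℝ)]
    refine mul_le_mul ?_ (sum_le_sum fun S hS => ?_) (sum_nonneg fun _ _ => sq_nonneg _)
      (by positivity)
    · have : #(univ.erase (∅ : Finset ι)) ≤ 2 ^ Fintype.card ι :=
        (card_le_univ _).trans (by rw [Fintype.card_finset])
      exact_mod_cast this
    · have h4 := (mem_erase.1 hS).1
      have h5 : (1 : ℝ) ≤ #S := by exact_mod_cast card_pos.2 (nonempty_iff_ne_empty.2 h4)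
      have h6 : (#S : ℝ) ≤ Fintype.card ι := by exact_mod_cast card_le_univ S
      simp only [g, hP d hd c (mem_erase.1 hc).1 S, if_neg h4]
      rw [mul_pow, mul_pow, ← pow_mul, mul_comm #S 2, pow_mul, neg_one_sq, one_pow, one_mul,
        ← mul_assoc]
      exact mul_le_mul_of_nonneg_right (by nlinarith) (sq_nonneg _)
  let Z := B ×ˢ (univ.erase (0 : F) ×ˢ univ.erase (∅ : Finset ι))
  have hinj : Set.InjOn y Z := by
    rintro ⟨d, c, S⟩ hz ⟨d', c', S'⟩ hz' h
    simp only [Z, coe_product, Set.mem_prod, mem_coe, mem_erase] at hz hz'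
    have e1 : S = S' := by rw [← hP d hz.1 c hz.2.1.1 S, h, hP d' hz'.1 c' hz'.2.1.1 S']
    subst e1
    obtain ⟨i, hi⟩ := nonempty_iff_ne_empty.2 hz.2.2.1
    have e2 : c = c' := by
      have := congrArg l (congrFun h i)
      simpa [y, hi, hl _ _ (hB d hz.1 i), hl _ _ (hB d' hz'.1 i)] using this
    subst e2
    have e3 : d = d' := funext fun j => by
      have := congrFun h j
      by_cases hj : j ∈ S
      · exact hτ c (by simpa [y, hj] using this)
      · simpa [y, hj] using this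
    rw [e3]
  have h2 : ∑ z ∈ Z, g (y z) ≤ ∑ x, g x := by
    rw [← sum_image hinj]
    exact sum_le_sum_of_subset_of_nonneg (subset_univ _) fun x _ _ => hg x
  have h3 : (#(univ.erase (0 : F)) : ℝ) * ∑ d ∈ B, f d ^ 2 ≤ K * ∑ z ∈ Z, g (y z) := by
    rw [sum_product, mul_sum, mul_sum]
    refine sum_le_sum fun d hd => ?_
    rw [sum_product, mul_sum, ← nsmul_eq_mul, ← sum_const]
    exact sum_le_sum fun c hc => h1 d hd c hc
  have h4 : K + 1 ≤ Fintype.card F := by rw [hK]; exact_mod_cast hQ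
  have h5 : (#(univ.erase (0 : F)) : ℝ) = Fintype.card F - 1 := by
    rw [card_erase_of_mem (mem_univ _), card_univ, Nat.cast_sub (by omega)]
    simp
  have h6 : 0 ≤ ∑ d ∈ B, f d ^ 2 := sum_nonneg fun _ _ => sq_nonneg _
  have h7 : ∑ d : ι → W, ((#(P d) : ℝ) - 1) * f d ^ 2 = ∑ x, g x - ∑ d ∈ B, f d ^ 2 := by
    rw [sum_filter, ← sum_sub_distrib]
    refine sum_congr rfl fun d _ => ?_
    by_cases h : P d = ∅ <;> simp [g, h]
  have h8 : 0 ≤ ∑ x, g x := sum_nonneg fun x _ => hg x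
  refine le_of_le_of_eq ?_ h7.symm
  have h0 : 0 < K := by rw [hK]; positivity
  have h9 := mul_le_mul_of_nonneg_left h2 hK0
  rw [h5] at h3
  have : K * ∑ d ∈ B, f d ^ 2 ≤ K * ∑ x, g x := by nlinarith
  linarith [le_of_mul_le_mul_left this h0]

end Pool.Agent.FS.SosGap
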